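import Mathlib

/-!
The boundary of a free group: infinite reduced words, with the action of the free group.
-/

set_option autoImplicit false

namespace Pool.Agent.Q80.FB

/-- the inverse of a letter -/
def linv {A : Type} (l : A × Bool) : A × Bool := (l.1, !l.2)

@[simp] lemma linv_linv {A : Type} (l : A × Bool) : linv (linv l) = l := by
  rcases l with ⟨a, b⟩
  simp [linv]

lemma linv_ne {A : Type} (l : A × Bool) : linv l ≠ l := by
  rcases l with ⟨a, b⟩
  cases b <;> simp [linv]

lemma ne_linv {A : Type} (l : A × Bool) : l ≠ linv l := (linv_ne l).symm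

/-- The boundary of the free group with basis `A`: the infinite reduced words. -/
def Bd (A : Type) : Type := {x : ℕ → A × Bool // ∀ n, x (n + 1) ≠ linv (x n)}

namespace Bd

variable {A : Type} [TopologicalSpace A] [DiscreteTopology A] [DecidableEq A]

instance : CoeFun (Bd A) (fun _ => ℕ → A × Bool) := ⟨Subtype.val⟩

instance : TopologicalSpace (Bd A) := inferInstanceAs (TopologicalSpace {x : ℕ → A × Bool // _})

instance : T2Space (Bd A) := inferInstanceAs (T2Space {x : ℕ → A × Bool // _})

omit [TopologicalSpace A] [DiscreteTopology A] [DecidableEq A] in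
lemma ext' {x y : Bd A} (h : ∀ n, x n = y n) : x = y := Subtype.ext (funext h)

omit [DecidableEq A] in
instance [Finite A] : CompactSpace (Bd A) := by
  have : IsClosed {x : ℕ → A × Bool | ∀ n, x (n + 1) ≠ linv (x n)} := by
    rw [Set.ofPred_forall]
    refine isClosed_iInter fun n => ?_
    have h : IsClosed {p : (A × Bool) × (A × Bool) | p.1 ≠ linv p.2} := isClosed_discrete _
    exact h.preimage (f := fun x : ℕ → A × Bool => (x (n + 1), x n))
      ((continuous_apply _).prodMk (continuous_apply _))
  exact isCompact_iff_compactSpace.1 this.isCompact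

omit [DecidableEq A] in
instance [Countable A] : SecondCountableTopology (Bd A) := by
  have : SecondCountableTopology (ℕ → A × Bool) := inferInstance
  exact TopologicalSpace.Subtype.secondCountableTopology _

omit [DecidableEq A] in
lemma continuous_coord (n : ℕ) : Continuous (fun x : Bd A => x n) :=
  (continuous_apply n).comp continuous_subtype_val

/-- the constant word -/
def const (l : A × Bool) : Bd A := ⟨fun _ => l, fun _ => ne_linv l⟩

instance [Inhabited A] : Nonempty (Bd A) := ⟨const (default, true)⟩

/-- remove the first letter -/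
def tail (x : Bd A) : Bd A := ⟨fun n => x (n + 1), fun n => x.2 (n + 1)⟩

/-- multiplication by a letter from the left -/
def push (l : A × Bool) (x : Bd A) : Bd A :=
  if h : x 0 = linv l then tail x else
    ⟨fun n => Nat.casesOn n l (fun m => x m), fun n => by
      cases n with
      | zero => exact h
      | succ n => exact x.2 n⟩

omit [TopologicalSpace A] [DiscreteTopology A] in
lemma push_of_ne {l : A × Bool} {x : Bd A} (h : x 0 ≠ linv l) (n : ℕ) :
    push l x (n + 1) = x n := by
  simp [push, h]

omit [TopologicalSpace A] [DiscreteTopology A] in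
lemma push_zero {l : A × Bool} {x : Bd A} (h : x 0 ≠ linv l) : push l x 0 = l := by
  simp [push, h]

omit [TopologicalSpace A] [DiscreteTopology A] in
lemma push_of_eq {l : A × Bool} {x : Bd A} (h : x 0 = linv l) (n : ℕ) :
    push l x n = x (n + 1) := by
  simp [push, h, tail]

omit [TopologicalSpace A] [DiscreteTopology A] in
lemma push_linv (l : A × Bool) (x : Bd A) : push (linv l) (push l x) = x := by
  apply ext'
  intro n
  by_cases h : x 0 = linv l
  · have h0 : push l x 0 ≠ linv (linv l) := by
      rw [push_of_eq h, linv_linv]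
      have := x.2 0
      rwa [h, linv_linv] at this
    cases n with
    | zero => rw [push_zero h0, h]
    | succ n => rw [push_of_ne h0, push_of_eq h]
  · have h0 : push l x 0 = linv (linv l) := by rw [push_zero h, linv_linv]
    rw [push_of_eq h0, push_of_ne h]

lemma continuous_push (l : A × Bool) : Continuous (push l : Bd A → Bd A) := by
  have hc : IsClopen {x : Bd A | x 0 = linv l} :=
    (isClopen_discrete {linv l}).preimage (continuous_coord 0)
  refine Continuous.subtype_mk (f := fun x : Bd A => (push l x).1) ?_ (fun x => (push l x).2)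
  refine continuous_pi fun n => ?_
  have : (fun x : Bd A => (push l x).1 n) = fun x : Bd A =>
      if x 0 = linv l then x (n + 1) else Nat.casesOn n l (fun m => x m) := by
    funext x
    split_ifs with h
    · exact push_of_eq h n
    · cases n with
      | zero => exact push_zero h
      | succ n => exact push_of_ne h n
  rw [this]
  refine Continuous.if (fun x hx => ?_) (continuous_coord _) ?_
  · rw [hc.frontier_eq] at hx
    exact hx.elim
  · cases n with
    | zero => exact continuous_const
    | succ n => exact continuous_coord n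

/-- multiplication by a letter is a homeomorphism -/
def pushH (l : A × Bool) : Bd A ≃ₜ Bd A where
  toFun := push l
  invFun := push (linv l)
  left_inv := push_linv l
  right_inv x := by
    have := push_linv (linv l) x
    rwa [linv_linv] at this
  continuous_toFun := continuous_push l
  continuous_invFun := continuous_push (linv l)

/-- the action of the free group on its boundary -/
def rho : FreeGroup A →* (Bd A ≃ₜ Bd A) := FreeGroup.lift fun a => pushH (a, true)

lemma rho_of (a : A) (x : Bd A) : rho (FreeGroup.of a) x = push (a, true) x := by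
  simp [rho, pushH]

lemma rho_mk_one (l : A × Bool) (x : Bd A) : rho (FreeGroup.mk [l]) x = push l x := by
  rcases l with ⟨a, b⟩
  cases b
  · have : FreeGroup.mk [(a, false)] = (FreeGroup.of a)⁻¹ := by
      rw [FreeGroup.of, FreeGroup.inv_mk]
      rfl
    rw [this, map_inv]
    have h : rho (FreeGroup.of a) = pushH (a, true) := by simp [rho]
    rw [h]
    rfl
  · exact rho_of a x

lemma rho_cons (l : A × Bool) (L : List (A × Bool)) (x : Bd A) :
    rho (FreeGroup.mk (l :: L)) x = push l (rho (FreeGroup.mk L) x) := by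
  have : FreeGroup.mk (l :: L) = FreeGroup.mk [l] * FreeGroup.mk L := by
    rw [FreeGroup.mul_mk]
    rfl
  rw [this, map_mul]
  exact rho_mk_one l _

/-- the product of the first `n` letters of `x` -/
def pre : ℕ → Bd A → FreeGroup A
  | 0, _ => 1
  | n + 1, x => FreeGroup.mk [x 0] * pre n (tail x)

lemma rho_pre (n : ℕ) : ∀ (x z : Bd A), z 0 ≠ linv (x n) → ∀ i ≤ n,
    rho (pre (n + 1) x) z i = x i := by
  induction n with
  | zero =>
    intro x z hz i hi
    obtain rfl : i = 0 := by omega
    simp only [pre, mul_one, rho_mk_one]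
    exact push_zero hz
  | succ n ih =>
    intro x z hz i hi
    have h := ih (tail x) z hz
    rw [pre, map_mul]
    change rho (FreeGroup.mk [x 0]) (rho (pre (n + 1) (tail x)) z) i = x i
    rw [rho_mk_one]
    have h0 : rho (pre (n + 1) (tail x)) z 0 ≠ linv (x 0) := by
      rw [h 0 (Nat.zero_le _)]
      exact x.2 0
    cases i with
    | zero => exact push_zero h0
    | succ i =>
      rw [push_of_ne h0, h i (by omega)]
      rfl

/-- reduced words act by concatenation -/
lemma rho_head (L : List (A × Bool)) : ∀ (l e : A × Bool), FreeGroup.IsReduced (l :: L) →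
    (l :: L).getLast? = some e → ∀ x : Bd A, x 0 ≠ linv e →
    rho (FreeGroup.mk (l :: L)) x 0 = l := by
  induction L with
  | nil =>
    intro l e _ he x hx
    simp only [List.getLast?_singleton, Option.some.injEq] at he
    subst he
    rw [rho_mk_one]
    exact push_zero hx
  | cons m L ih =>
    intro l e hr he x hx
    rw [FreeGroup.isReduced_cons_cons] at hr
    rw [rho_cons]
    have h := ih m e hr.2 (by rwa [List.getLast?_cons_cons] at he) x hx
    apply push_zero
    rw [h]
    intro hm
    have h1 := congrArg Prod.fst hm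
    have h2 := congrArg Prod.snd hm
    have h3 := hr.1 h1.symm
    simp only [linv] at h2
    rw [h3] at h2
    exact absurd h2 (by cases m.2 <;> simp)

/-- the inverse of a nontrivial element maps almost the whole boundary to one cylinder -/
lemma rho_inv_head {g : FreeGroup A} (hg : g ≠ 1) :
    ∃ h e : A × Bool, ∀ x : Bd A, x 0 ≠ e → rho g⁻¹ x 0 = h := by
  have h1 : g⁻¹.toWord ≠ [] := by
    rw [Ne, FreeGroup.toWord_eq_nil_iff, inv_eq_one]
    exact hg
  obtain ⟨l, L, hL⟩ := List.exists_cons_of_ne_nil h1
  have hr : FreeGroup.IsReduced (l :: L) := by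
    rw [← hL]
    exact FreeGroup.isReduced_toWord
  obtain ⟨e, he⟩ : ∃ e, (l :: L).getLast? = some e := by
    rw [← Option.isSome_iff_exists]
    simp
  refine ⟨l, linv e, fun x hx => ?_⟩
  have := rho_head L l e hr he x hx
  rwa [← hL, FreeGroup.mk_toWord] at this

lemma rho_pow_ne (g : A × Bool) (k : ℕ) (x : Bd A) (hx : x 0 ≠ linv g) :
    rho (FreeGroup.mk [g] ^ (k + 1)) x 0 = g := by
  induction k with
  | zero =>
    rw [zero_add, pow_one, rho_mk_one]
    exact push_zero hx
  | succ k ih =>
    rw [pow_succ', map_mul]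
    change rho (FreeGroup.mk [g]) (rho (FreeGroup.mk [g] ^ (k + 1)) x) 0 = g
    rw [rho_mk_one]
    apply push_zero
    rw [ih]
    exact ne_linv g

lemma exists_cylinder (a : A) (hA : ∃ a' : A, a' ≠ a) {O : Set (Bd A)} (hO : IsOpen O)
    (hne : O.Nonempty) : ∃ (w : FreeGroup A) (g : A × Bool), g.1 ≠ a ∧
      ∀ z : Bd A, z 0 = g → rho w z ∈ O := by
  obtain ⟨a', ha'⟩ := hA
  obtain ⟨x, hx⟩ := hne
  obtain ⟨V, hV, hVO⟩ := isOpen_induced_iff.1 hO
  have hxV : x.1 ∈ V := (Set.ext_iff.1 hVO x).2 hx
  obtain ⟨I, u, hu, huV⟩ := isOpen_pi_iff.1 hV x.1 hxV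
  obtain ⟨n, hn⟩ : ∃ n : ℕ, ∀ i ∈ I, i ≤ n := ⟨I.sup id, fun i hi => Finset.le_sup (f := id) hi⟩
  refine ⟨pre (n + 1) x, (a', !(linv (x n)).2), ha', fun z hz => ?_⟩
  have h0 : z 0 ≠ linv (x n) := by
    intro h
    rw [hz] at h
    have := congrArg Prod.snd h
    simp only at this
    exact absurd this (by cases (linv (x n)).2 <;> simp)
  have h1 := rho_pre n x z h0
  have : (rho (pre (n + 1) x) z).1 ∈ V := by
    apply huV
    intro i hi
    have := h1 i (hn i hi)
    change (rho (pre (n + 1) x) z) i ∈ u i
    rw [this]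
    exact (hu i hi).2
  exact (Set.ext_iff.1 hVO _).1 this

open MeasureTheory ENNReal in
/-- the conjugates of one basis element contract every probability measure to every open set -/
lemma exists_conj [MeasurableSpace (Bd A)] [BorelSpace (Bd A)] (a : A) (hA : ∃ a' : A, a' ≠ a)
    {O : Set (Bd A)} (hO : IsOpen O) (hne : O.Nonempty) (ν : Measure (Bd A))
    [IsProbabilityMeasure ν] {ε : ℝ≥0∞} (hε : 0 < ε) :
    ∃ v : FreeGroup A, ν {x | rho (v * FreeGroup.of a * v⁻¹) x ∉ O} ≤ ε := by
  obtain ⟨w, g, hg, hw⟩ := exists_cylinder a hA hO hne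
  set s : A × Bool := (a, true) with hs
  have hgs : ∀ b : Bool, (a, b) ≠ linv g := by
    intro b h
    exact hg (congrArg Prod.fst h).symm
  have hgs' : ∀ b : Bool, (a, b) ≠ g := by
    intro b h
    exact hg (congrArg Prod.fst h).symm
  let v : ℕ → FreeGroup A := fun k => w * FreeGroup.mk [g] ^ (k + 1)
  let R : ℕ → Set (Bd A) := fun k => {x | rho (v k)⁻¹ x 0 = linv s}
  have hR : ∀ k, MeasurableSet (R k) := by
    intro k
    have : IsClosed (R k) :=
      (isClosed_discrete {linv s}).preimage ((continuous_coord 0).comp (rho (v k)⁻¹).continuous)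
    exact this.measurableSet
  have hdisj : Pairwise (Function.onFun Disjoint R) := by
    have key : ∀ k l : ℕ, k < l → Disjoint (R k) (R l) := by
      intro k l hkl
      rw [Set.disjoint_left]
      intro x hk hl
      obtain ⟨m, rfl⟩ := Nat.exists_eq_add_of_lt hkl
      have e1 : (v k)⁻¹ = FreeGroup.mk [g] ^ (m + 1) * (v (k + m + 1))⁻¹ := by
        simp only [v, mul_inv_rev]
        rw [← mul_assoc]
        congr 1
        rw [show k + m + 1 + 1 = (m + 1) + (k + 1) by ring, pow_add, mul_inv_rev]
        group
      have hk' : rho (v k)⁻¹ x 0 = linv s := hk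
      have hl' : rho (v (k + m + 1))⁻¹ x 0 = linv s := hl
      rw [e1, map_mul] at hk'
      change rho (FreeGroup.mk [g] ^ (m + 1)) (rho (v (k + m + 1))⁻¹ x) 0 = linv s at hk'
      rw [rho_pow_ne g m _ (by rw [hl']; exact hgs _)] at hk'
      exact hgs' _ hk'.symm
    intro k l hkl
    rcases lt_or_gt_of_ne hkl with h | h
    · exact key k l h
    · exact (key l k h).symm
  obtain ⟨k, hk⟩ : ∃ k, ν (R k) ≤ ε := by
    by_contra hcon
    push Not at hcon
    have h1 : ∑' k, ν (R k) ≤ 1 := by
      rw [← measure_iUnion hdisj hR]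
      exact prob_le_one
    have h2 : ∑' _ : ℕ, ε ≤ ∑' k, ν (R k) := ENNReal.tsum_le_tsum fun k => (hcon k).le
    rw [ENNReal.tsum_const_eq_top_of_ne_zero hε.ne'] at h2
    have := h2.trans h1
    simp at this
  refine ⟨v k, (measure_mono ?_).trans hk⟩
  intro x hx
  by_contra hxR
  apply hx
  have h1 : rho (v k)⁻¹ x 0 ≠ linv s := hxR
  have e2 : rho (v k * FreeGroup.of a * (v k)⁻¹) x =
      rho w (rho (FreeGroup.mk [g] ^ (k + 1)) (push s (rho (v k)⁻¹ x))) := by
    rw [map_mul, map_mul]
    change rho (v k) (rho (FreeGroup.of a) (rho (v k)⁻¹ x)) = _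
    rw [rho_of]
    simp only [v, map_mul]
    rfl
  rw [e2]
  apply hw
  apply rho_pow_ne
  rw [push_zero h1]
  exact hgs _

end Bd

end Pool.Agent.Q80.FB
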