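import Mathlib

/-!
Actions by homeomorphisms, and moves that can be made with probability close to one.
-/

set_option autoImplicit false

namespace Pool.Agent.Q80.FB

open MeasureTheory ENNReal

variable {F X : Type} [Group F] [TopologicalSpace X] [MeasurableSpace X] [BorelSpace X]

/-- For every probability measure and `ε > 0` there is a group element which makes the move `R`
on a set of probability at least `1 - ε`. -/
def Can (φ : F →* (X ≃ₜ X)) (R : X → X → Prop) : Prop :=
  ∀ (μ : Measure X), IsProbabilityMeasure μ → ∀ ε : ℝ≥0∞, 0 < ε →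
    ∃ g : F, μ {x | ¬ R x (φ g x)} ≤ ε

lemma Can.mono {φ : F →* (X ≃ₜ X)} {R S : X → X → Prop} (h : Can φ R)
    (hRS : ∀ x y, R x y → S x y) : Can φ S := by
  intro μ hμ ε hε
  obtain ⟨g, hg⟩ := h μ hμ ε hε
  refine ⟨g, (measure_mono ?_).trans hg⟩
  intro x hx hR
  exact hx (hRS _ _ hR)

lemma Can.elem (φ : F →* (X ≃ₜ X)) (g : F) : Can φ (fun x y => y = φ g x) := by
  intro μ hμ ε hε
  refine ⟨g, ?_⟩
  simp

lemma Can.comp {φ : F →* (X ≃ₜ X)} {R S : X → X → Prop} (h1 : Can φ R) (h2 : Can φ S) :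
    Can φ (fun x z => ∃ y, R x y ∧ S y z) := by
  intro μ hμ ε hε
  have hε2 : 0 < ε / 2 := ENNReal.half_pos hε.ne'
  obtain ⟨g1, hg1⟩ := h1 μ hμ (ε / 2) hε2
  let e : X ≃ᵐ X := (φ g1).toMeasurableEquiv
  have hμ' : IsProbabilityMeasure (μ.map e) :=
    Measure.isProbabilityMeasure_map e.measurable.aemeasurable
  obtain ⟨g2, hg2⟩ := h2 (μ.map e) hμ' (ε / 2) hε2
  rw [MeasurableEquiv.map_apply] at hg2
  refine ⟨g2 * g1, ?_⟩
  have hsub : {x | ¬ ∃ y, R x y ∧ S y (φ (g2 * g1) x)} ⊆
      {x | ¬ R x (φ g1 x)} ∪ e ⁻¹' {x | ¬ S x (φ g2 x)} := by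
    intro x hx
    by_contra hcon
    rw [Set.mem_union, not_or] at hcon
    apply hx
    refine ⟨φ g1 x, not_not.1 hcon.1, ?_⟩
    have h3 : ¬ ¬ S (φ g1 x) (φ g2 (φ g1 x)) := hcon.2
    rw [map_mul]
    exact not_not.1 h3
  calc μ {x | ¬ ∃ y, R x y ∧ S y (φ (g2 * g1) x)}
      ≤ μ ({x | ¬ R x (φ g1 x)} ∪ e ⁻¹' {x | ¬ S x (φ g2 x)}) := measure_mono hsub
    _ ≤ ε / 2 + ε / 2 := (measure_union_le _ _).trans (add_le_add hg1 hg2)
    _ = ε := ENNReal.add_halves ε

/-- all probability measures can be contracted to all open sets -/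
def Contracts (φ : F →* (X ≃ₜ X)) : Prop :=
  ∀ O : Set X, IsOpen O → O.Nonempty → Can φ (fun _ y => y ∈ O)

/-- all orbits are dense -/
def IsMinimal {F X : Type} [Group F] [TopologicalSpace X] (φ : F →* (X ≃ₜ X)) : Prop :=
  ∀ x : X, Dense (Set.range fun g : F => φ g x)

/-- For every Borel probability measure `μ`, the closure, in the weak-* topology, of the orbit of
`μ` contains a Dirac measure. -/
def IsStronglyProximal {F X : Type} [Group F] [TopologicalSpace X] (φ : F →* (X ≃ₜ X)) : Prop :=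
  letI : MeasurableSpace X := borel X
  haveI : BorelSpace X := ⟨rfl⟩
  ∀ μ : ProbabilityMeasure X, ∃ x : X, diracProba x ∈
    closure (Set.range fun g : F => μ.map (φ g).measurable.aemeasurable)

/-- The set of the points with trivial stabilizer is dense. -/
def IsTopologicallyFree {F X : Type} [Group F] [TopologicalSpace X] (φ : F →* (X ≃ₜ X)) : Prop :=
  Dense {x : X | ∀ g : F, φ g x = x → g = 1}

lemma Contracts.isMinimal {φ : F →* (X ≃ₜ X)} (h : Contracts φ) : IsMinimal φ := by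
  intro x
  rw [dense_iff_inter_open]
  intro O hO hne
  obtain ⟨g, hg⟩ := h O hO hne (Measure.dirac x) inferInstance (1 / 2) (by simp)
  refine ⟨φ g x, ?_, g, rfl⟩
  by_contra hcon
  have h1 : (1 : ℝ≥0∞) ≤ 1 / 2 := by
    calc (1 : ℝ≥0∞) = (Measure.dirac x) {y | ¬ φ g y ∈ O} := by
          rw [Measure.dirac_apply_of_mem]
          exact hcon
      _ ≤ 1 / 2 := hg
  rw [one_div] at h1
  exact absurd h1 (by norm_num)

open Filter Topology in
lemma Contracts.isStronglyProximal {F X : Type} [Group F] [TopologicalSpace X] [Nonempty X]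
    [FirstCountableTopology X] [HasOuterApproxClosed X] {φ : F →* (X ≃ₜ X)}
    (h : letI : MeasurableSpace X := borel X; haveI : BorelSpace X := ⟨rfl⟩; Contracts φ) :
    IsStronglyProximal φ := by
  letI : MeasurableSpace X := borel X
  haveI : BorelSpace X := ⟨rfl⟩
  intro μ
  obtain ⟨x0⟩ := ‹Nonempty X›
  refine ⟨x0, ?_⟩
  obtain ⟨O, hO, hbas⟩ := (nhds_basis_opens x0).exists_antitone_subbasis
  have hex : ∀ n : ℕ, ∃ g : F, (μ : Measure X) {x | ¬ φ g x ∈ O n} ≤ ((n : ℝ≥0∞) + 1)⁻¹ := by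
    intro n
    exact h (O n) (hO n).2 ⟨x0, (hO n).1⟩ (μ : Measure X) inferInstance _ (by simp)
  choose g hg using hex
  refine mem_closure_of_tendsto (b := atTop)
    (f := fun n : ℕ => μ.map (φ (g n)).measurable.aemeasurable) ?_
    (Eventually.of_forall fun n => ⟨g n, rfl⟩)
  apply tendsto_of_forall_isOpen_le_liminf'
  intro G hG
  by_cases hx : x0 ∈ G
  · have h1 : ∀ᶠ n in atTop, O n ⊆ G := by
      obtain ⟨n, -, hn⟩ := hbas.1.mem_iff.1 (hG.mem_nhds hx)
      filter_upwards [eventually_ge_atTop n] with m hm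
      exact (hbas.antitone hm).trans hn
    have h2 : ∀ᶠ n : ℕ in atTop, 1 - ((n : ℝ≥0∞) + 1)⁻¹ ≤
        ((μ.map (φ (g n)).measurable.aemeasurable : ProbabilityMeasure X) : Measure X) G := by
      filter_upwards [h1] with n hn
      have e1 : ((μ.map (φ (g n)).measurable.aemeasurable : ProbabilityMeasure X) : Measure X) G =
          (μ : Measure X) (φ (g n) ⁻¹' G) := by
        rw [ProbabilityMeasure.toMeasure_map]
        exact Measure.map_apply (φ (g n)).measurable hG.measurableSet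
      rw [e1]
      have hm : MeasurableSet (φ (g n) ⁻¹' G) := (φ (g n)).measurable hG.measurableSet
      have e2 : (μ : Measure X) (φ (g n) ⁻¹' G) = 1 - (μ : Measure X) (φ (g n) ⁻¹' G)ᶜ := by
        rw [prob_compl_eq_one_sub hm]
        exact (ENNReal.sub_sub_cancel ENNReal.one_ne_top prob_le_one).symm
      rw [e2]
      apply tsub_le_tsub_left
      refine (measure_mono ?_).trans (hg n)
      intro x hx hcon
      exact hx (hn hcon)
    have h3 : Tendsto (fun n : ℕ => 1 - ((n : ℝ≥0∞) + 1)⁻¹) atTop (𝓝 1) := by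
      have h4 : Tendsto (fun n : ℕ => ((n : ℝ≥0∞) + 1)⁻¹) atTop (𝓝 0) := by
        have h5 : Tendsto (fun n : ℕ => (((n + 1 : ℕ) : ℝ≥0∞))⁻¹) atTop (𝓝 0) :=
          ENNReal.tendsto_inv_nat_nhds_zero.comp (tendsto_add_atTop_nat 1)
        simpa using h5
      have h6 := ENNReal.Tendsto.sub (tendsto_const_nhds (x := (1 : ℝ≥0∞))) h4
        (Or.inl ENNReal.one_ne_top)
      simpa using h6
    have h7 : ((diracProba x0 : ProbabilityMeasure X) : Measure X) G = 1 := by
      rw [diracProba_toMeasure_apply' x0 hG.measurableSet]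
      simp [hx]
    rw [h7, ← h3.liminf_eq]
    exact liminf_le_liminf h2
  · have h7 : ((diracProba x0 : ProbabilityMeasure X) : Measure X) G = 0 := by
      rw [diracProba_toMeasure_apply' x0 hG.measurableSet]
      simp [hx]
    rw [h7]
    exact zero_le

end Pool.Agent.Q80.FB
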