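import Pool.Agent.Q80.FB.Bd
import Pool.Agent.Q80.FB.Can

/-!
An action of a free group on `Fin 3 × Z`.
-/

set_option autoImplicit false

namespace Pool.Agent.Q80.FB

open MeasureTheory ENNReal

/-- the basis of the first group -/
abbrev A1 (m : ℕ) : Type := Fin 3 ⊕ Fin (m + 1)

/-- the homomorphism onto the second group -/
def pi (m : ℕ) : FreeGroup (A1 m) →* FreeGroup (Fin 3) :=
  FreeGroup.lift (Sum.elim FreeGroup.of fun _ => 1)

lemma pi_map (m : ℕ) (v : FreeGroup (Fin 3)) : pi m (FreeGroup.map Sum.inl v) = v := by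
  have : (pi m).comp (FreeGroup.map Sum.inl) = MonoidHom.id _ := by
    ext a
    simp [pi]
  exact DFunLike.congr_fun this v

/-- the product of the two boundaries -/
abbrev Y (m : ℕ) : Type := Bd (A1 m) × Bd (Fin 3)

/-- the diagonal action -/
def rhoY (m : ℕ) : FreeGroup (A1 m) →* (Y m ≃ₜ Y m) where
  toFun γ := (Bd.rho γ).prodCongr (Bd.rho (pi m γ))
  map_one' := by
    ext p <;> simp
  map_mul' a b := by
    ext p <;> simp

lemma rhoY_apply (m : ℕ) (γ : FreeGroup (A1 m)) (p : Y m) :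
    rhoY m γ p = (Bd.rho γ p.1, Bd.rho (pi m γ) p.2) := rfl

/-- the class of a basis element -/
def cls {m : ℕ} : A1 m → Fin 3 := Sum.elim id fun _ => 0

/-- the type of a point -/
def typ {m : ℕ} (p : Y m) : Fin 3 := cls (p.1 0).1 + (p.2 0).1

lemma continuous_typ (m : ℕ) : Continuous (typ : Y m → Fin 3) := by
  have h1 : Continuous fun p : Y m => (p.1 0, p.2 0) :=
    ((Bd.continuous_coord 0).comp continuous_fst).prodMk
      ((Bd.continuous_coord 0).comp continuous_snd)
  have h2 : Continuous fun q : (A1 m × Bool) × (Fin 3 × Bool) => cls q.1.1 + q.2.1 :=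
    continuous_of_discreteTopology
  exact h2.comp h1

/-- change the names of the letters -/
def relabel (d : Fin 3) (y : Bd (Fin 3)) : Bd (Fin 3) :=
  ⟨fun n => ((y n).1 + d, (y n).2), fun n h => by
    apply y.2 n
    have h1 := congrArg Prod.fst h
    have h2 := congrArg Prod.snd h
    simp only [linv] at h1 h2
    exact Prod.ext (add_right_cancel h1) h2⟩

lemma relabel_relabel (d d' : Fin 3) (h : d + d' = 0) (y : Bd (Fin 3)) :
    relabel d' (relabel d y) = y := by
  apply Bd.ext'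
  intro n
  have : (y n).1 + d + d' = (y n).1 := by rw [add_assoc, h, add_zero]
  exact Prod.ext this rfl

lemma typ_relabel {m : ℕ} (x : Bd (A1 m)) (y : Bd (Fin 3)) (d : Fin 3) :
    typ (x, relabel d y) = typ (x, y) + d := by
  simp only [typ, relabel]
  rw [add_assoc]

lemma continuous_relabel : Continuous fun q : Fin 3 × Bd (Fin 3) => relabel q.1 q.2 := by
  refine Continuous.subtype_mk (f := fun q : Fin 3 × Bd (Fin 3) => (relabel q.1 q.2).1) ?_ _
  refine continuous_pi fun n => ?_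
  have h2 : Continuous fun r : Fin 3 × (Fin 3 × Bool) => ((r.2.1 + r.1, r.2.2) : Fin 3 × Bool) :=
    continuous_of_discreteTopology
  exact h2.comp (continuous_fst.prodMk ((Bd.continuous_coord n).comp continuous_snd))

/-- the points of type `0` -/
def Z (m : ℕ) : Type := {p : Y m // typ p = 0}

instance (m : ℕ) : TopologicalSpace (Z m) := inferInstanceAs (TopologicalSpace {_p : Y m // _})

instance (m : ℕ) : T2Space (Z m) := inferInstanceAs (T2Space {_p : Y m // _})

instance (m : ℕ) : CompactSpace (Z m) := by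
  have : IsClosed {p : Y m | typ p = 0} := (isClosed_discrete {0}).preimage (continuous_typ m)
  exact isCompact_iff_compactSpace.1 this.isCompact

instance (m : ℕ) : SecondCountableTopology (Z m) :=
  TopologicalSpace.Subtype.secondCountableTopology _

/-- the product of boundaries in new coordinates -/
def e (m : ℕ) : Y m ≃ₜ Fin 3 × Z m where
  toFun p := (typ p, ⟨(p.1, relabel (-typ p) p.2), by
    rw [typ_relabel]
    exact add_neg_cancel _⟩)
  invFun q := (q.2.1.1, relabel q.1 q.2.1.2)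
  left_inv p := by
    refine Prod.ext rfl ?_
    exact relabel_relabel _ _ (neg_add_cancel _) _
  right_inv q := by
    rcases q with ⟨d, ⟨x, y⟩, h⟩
    have h1 : typ (x, relabel d y) = d := by rw [typ_relabel, h, zero_add]
    refine Prod.ext h1 ?_
    apply Subtype.ext
    refine Prod.ext rfl ?_
    change relabel (-typ (x, relabel d y)) (relabel d y) = y
    rw [h1]
    exact relabel_relabel _ _ (add_neg_cancel _) _
  continuous_toFun := by
    refine (continuous_typ m).prodMk ?_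
    refine Continuous.subtype_mk (f := fun p : Y m => (p.1, relabel (-typ p) p.2)) ?_ _
    refine continuous_fst.prodMk ?_
    have h2 : Continuous fun d : Fin 3 => -d := continuous_of_discreteTopology
    exact continuous_relabel.comp ((h2.comp (continuous_typ m)).prodMk continuous_snd)
  continuous_invFun := by
    have h1 : Continuous fun q : Fin 3 × Z m => q.2.1 := continuous_subtype_val.comp continuous_snd
    exact (continuous_fst.comp h1).prodMk
      (continuous_relabel.comp (continuous_fst.prodMk (continuous_snd.comp h1)))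

lemma e_fst (m : ℕ) (p : Y m) : (e m p).1 = typ p := rfl

/-- the action in the new coordinates -/
def sigma (m : ℕ) : FreeGroup (A1 m) →* ((Fin 3 × Z m) ≃ₜ (Fin 3 × Z m)) where
  toFun γ := ((e m).symm.trans (rhoY m γ)).trans (e m)
  map_one' := by
    ext1 p
    simp
  map_mul' a b := by
    ext1 p
    simp

lemma sigma_apply (m : ℕ) (γ : FreeGroup (A1 m)) (q : Fin 3 × Z m) :
    sigma m γ q = e m (rhoY m γ ((e m).symm q)) := rfl

lemma star (m : ℕ) {γ : FreeGroup (A1 m)} (hγ : γ ≠ 1) (j : Fin 3) (hj : j ≠ 0) :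
    ∃ c : Z m, (sigma m γ (j, c)).1 ≠ 0 ∧ (sigma m γ (j, c)).1 ≠ j := by
  obtain ⟨h, e', he⟩ := Bd.rho_inv_head hγ
  let y : Bd (Fin 3) := Bd.const (j - cls h.1, true)
  let β : Fin 3 := (Bd.rho (pi m γ) y 0).1
  let l' : A1 m × Bool := (Sum.inl (-j - β), !e'.2)
  have hl' : l' ≠ e' := by
    intro h
    have := congrArg Prod.snd h
    simp only [l'] at this
    exact absurd this (by cases e'.2 <;> simp)
  let x' : Bd (A1 m) := Bd.const l'
  let x : Bd (A1 m) := Bd.rho γ⁻¹ x'
  have hx : x 0 = h := he x' hl'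
  have ht : typ (x, y) = j := by
    simp only [typ]
    rw [hx]
    simp only [y, Bd.const]
    exact add_sub_cancel _ _
  have hx' : Bd.rho γ x = x' := by
    simp only [x]
    rw [map_inv]
    exact (Bd.rho γ).apply_symm_apply x'
  have ht' : typ (rhoY m γ (x, y)) = -j := by
    rw [rhoY_apply]
    simp only [typ]
    rw [hx']
    change cls (m := m) (Sum.inl (-j - β)) + β = -j
    simp [cls]
  have h1 : (e m).symm (j, (e m (x, y)).2) = (x, y) := by
    rw [Homeomorph.symm_apply_eq]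
    exact Prod.ext ht.symm rfl
  refine ⟨(e m (x, y)).2, ?_⟩
  rw [sigma_apply, h1, e_fst, ht']
  exact (by decide : ∀ j : Fin 3, j ≠ 0 → -j ≠ 0 ∧ -j ≠ j) j hj

lemma Contracts.conj {F X X' : Type} [Group F] [TopologicalSpace X] [MeasurableSpace X]
    [BorelSpace X] [TopologicalSpace X'] [MeasurableSpace X'] [BorelSpace X']
    {φ : F →* (X ≃ₜ X)} {φ' : F →* (X' ≃ₜ X')} (e : X ≃ₜ X') (h : ∀ g x, e (φ g x) = φ' g (e x))
    (hφ : Contracts φ) : Contracts φ' := by
  intro O hO hne μ hμ ε hε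
  let e' : X' ≃ᵐ X := e.symm.toMeasurableEquiv
  have hμ' : IsProbabilityMeasure (μ.map e') :=
    Measure.isProbabilityMeasure_map e'.measurable.aemeasurable
  obtain ⟨g, hg⟩ := hφ (e ⁻¹' O) (hO.preimage e.continuous)
    (hne.preimage e.surjective) (μ.map e') hμ' ε hε
  rw [MeasurableEquiv.map_apply] at hg
  refine ⟨g, (measure_mono ?_).trans hg⟩
  intro x hx hcon
  apply hx
  have h1 : φ g (e.symm x) ∈ e ⁻¹' O := hcon
  rw [Set.mem_preimage, h, e.apply_symm_apply] at h1
  exact h1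

lemma contracts_prod {F X₁ X₂ : Type} [Group F] [TopologicalSpace X₁] [MeasurableSpace X₁]
    [BorelSpace X₁] [TopologicalSpace X₂] [MeasurableSpace X₂] [BorelSpace X₂]
    [SecondCountableTopology X₁] [SecondCountableTopology X₂]
    {φ : F →* ((X₁ × X₂) ≃ₜ (X₁ × X₂))}
    (h2 : ∀ O : Set X₂, IsOpen O → O.Nonempty → ∀ ν : Measure X₂, IsProbabilityMeasure ν →
      ∀ ε : ℝ≥0∞, 0 < ε → ∃ (g : F) (θ : X₂ ≃ₜ X₂), (∀ p, (φ g p).2 = θ p.2) ∧
        ν {y | θ y ∉ O} ≤ ε)
    (h1 : ∀ O : Set X₁, IsOpen O → O.Nonempty → ∀ ν : Measure X₁, IsProbabilityMeasure ν →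
      ∀ ε : ℝ≥0∞, 0 < ε → ∃ (g : F) (θ : X₁ ≃ₜ X₁), (∀ p, φ g p = (θ p.1, p.2)) ∧
        ν {x | θ x ∉ O} ≤ ε) : Contracts φ := by
  intro O hO hne
  obtain ⟨⟨a, b⟩, hab⟩ := hne
  obtain ⟨O₁, O₂, hO₁, hO₂, ha, hb, hsub⟩ := isOpen_prod_iff.1 hO a b hab
  have c2 : Can φ (fun _ q => q.2 ∈ O₂) := by
    intro μ hμ ε hε
    have hμ' : IsProbabilityMeasure (μ.map Prod.snd) :=
      Measure.isProbabilityMeasure_map measurable_snd.aemeasurable
    obtain ⟨g, θ, hθ, hg⟩ := h2 O₂ hO₂ ⟨b, hb⟩ (μ.map Prod.snd) hμ' ε hε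
    refine ⟨g, ?_⟩
    have hm : MeasurableSet {y | θ y ∉ O₂} :=
      (hO₂.measurableSet.compl.preimage θ.measurable)
    rw [Measure.map_apply measurable_snd hm] at hg
    refine (measure_mono ?_).trans hg
    intro p hp
    change θ p.2 ∉ O₂
    rw [← hθ]
    exact hp
  have c1 : Can φ (fun p q => q.1 ∈ O₁ ∧ q.2 = p.2) := by
    intro μ hμ ε hε
    have hμ' : IsProbabilityMeasure (μ.map Prod.fst) :=
      Measure.isProbabilityMeasure_map measurable_fst.aemeasurable
    obtain ⟨g, θ, hθ, hg⟩ := h1 O₁ hO₁ ⟨a, ha⟩ (μ.map Prod.fst) hμ' ε hε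
    refine ⟨g, ?_⟩
    have hm : MeasurableSet {y | θ y ∉ O₁} :=
      (hO₁.measurableSet.compl.preimage θ.measurable)
    rw [Measure.map_apply measurable_fst hm] at hg
    refine (measure_mono ?_).trans hg
    intro p hp
    change θ p.1 ∉ O₁
    intro hcon
    apply hp
    rw [hθ]
    exact ⟨hcon, rfl⟩
  refine (c2.comp c1).mono ?_
  rintro p q ⟨r, hr, hq⟩
  apply hsub
  refine ⟨hq.1, ?_⟩
  rw [hq.2]
  exact hr

lemma contracts_sigma (m : ℕ) [MeasurableSpace (Fin 3 × Z m)] [BorelSpace (Fin 3 × Z m)] :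
    Contracts (sigma m) := by
  letI i1 : MeasurableSpace (Bd (A1 m)) := borel _
  haveI : BorelSpace (Bd (A1 m)) := ⟨rfl⟩
  letI i2 : MeasurableSpace (Bd (Fin 3)) := borel _
  haveI : BorelSpace (Bd (Fin 3)) := ⟨rfl⟩
  have hY : Contracts (rhoY m) := by
    refine contracts_prod ?_ ?_
    · intro O hO hne ν hν ε hε
      obtain ⟨v, hv⟩ := Bd.exists_conj (0 : Fin 3) ⟨1, by decide⟩ hO hne ν hε
      refine ⟨FreeGroup.map Sum.inl (v * FreeGroup.of 0 * v⁻¹),
        Bd.rho (v * FreeGroup.of 0 * v⁻¹), fun p => ?_, hv⟩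
      rw [rhoY_apply, pi_map]
    · intro O hO hne ν hν ε hε
      obtain ⟨v, hv⟩ := Bd.exists_conj (Sum.inr 0 : A1 m) ⟨Sum.inl 0, by simp⟩ hO hne ν hε
      refine ⟨v * FreeGroup.of (Sum.inr 0) * v⁻¹,
        Bd.rho (v * FreeGroup.of (Sum.inr 0) * v⁻¹), fun p => ?_, hv⟩
      have : pi m (v * FreeGroup.of (Sum.inr 0) * v⁻¹) = 1 := by
        rw [map_mul, map_mul, map_inv]
        have h1 : pi m (FreeGroup.of (Sum.inr 0)) = 1 := by simp [pi]
        rw [h1, mul_one, mul_inv_cancel]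
      rw [rhoY_apply, this, map_one]
      rfl
  refine hY.conj (e m) fun g x => ?_
  rw [sigma_apply, Homeomorph.symm_apply_apply]

lemma z_nontrivial (m : ℕ) : ∃ a b : Z m, a ≠ b := by
  refine ⟨⟨(Bd.const (Sum.inl 0, true), Bd.const (0, true)), by simp [typ, cls, Bd.const]⟩,
    ⟨(Bd.const (Sum.inl 0, false), Bd.const (0, true)), by simp [typ, cls, Bd.const]⟩, ?_⟩
  intro h
  have h1 : (Bd.const ((Sum.inl 0, true) : A1 m × Bool)) = Bd.const (Sum.inl 0, false) :=
    congrArg (fun z : Z m => z.1.1) h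
  have h2 := congrArg (fun x : Bd (A1 m) => (x 0).2) h1
  simp [Bd.const] at h2

end Pool.Agent.Q80.FB
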