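import Pool.Agent.Q80.FB.Can

/-!
From an action of a free group on `Fin 3 × Z` to an action of a free group with one more
generator on `Fin 3 × (G → Z)`.
-/

set_option autoImplicit false

namespace Pool.Agent.Q80.FB

open MeasureTheory ENNReal

/-- the two nonzero types -/
abbrev J : Type := {d : Fin 3 // d ≠ 0}

/-- the free group of rank two in which the sites live -/
abbrev G : Type := FreeGroup J

/-- the space -/
abbrev XX (Z : Type) : Type := Fin 3 × (G → Z)

/-- the translation by one letter -/
def dl (d : Fin 3) (ε : Bool) : G := if h : d ≠ 0 then FreeGroup.mk [(⟨d, h⟩, ε)] else 1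

lemma dl_zero (ε : Bool) : dl 0 ε = 1 := by simp [dl]

lemma dl_mul (d : Fin 3) (ε : Bool) : dl d ε * dl d (!ε) = 1 := by
  by_cases h : d ≠ 0
  · rw [dl, dl, dif_pos h, dif_pos h, FreeGroup.mul_mk]
    have : FreeGroup.Red.Step ([((⟨d, h⟩ : J), ε)] ++ [((⟨d, h⟩ : J), !ε)]) [] :=
      FreeGroup.Red.Step.cons_not
    exact Quot.sound this
  · rw [dl, dl, dif_neg h, dif_neg h, mul_one]

lemma dl_mul' (d : Fin 3) (ε : Bool) : dl d (!ε) * dl d ε = 1 := by
  have := dl_mul d (!ε)
  rwa [Bool.not_not] at this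

lemma dl_inv (d : Fin 3) (ε : Bool) : (dl d ε)⁻¹ = dl d (!ε) :=
  inv_eq_of_mul_eq_one_right (dl_mul d ε)

variable {A Z : Type} [TopologicalSpace Z]

/-- the new generator and its inverse -/
def shift (ε : Bool) : XX Z ≃ₜ XX Z where
  toFun f := (f.1, fun h => f.2 (dl f.1 (!ε) * h))
  invFun f := (f.1, fun h => f.2 (dl f.1 ε * h))
  left_inv f := by
    refine Prod.ext rfl (funext fun h => ?_)
    change f.2 (dl f.1 (!ε) * (dl f.1 ε * h)) = f.2 h
    rw [← mul_assoc, dl_mul', one_mul]
  right_inv f := by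
    refine Prod.ext rfl (funext fun h => ?_)
    change f.2 (dl f.1 ε * (dl f.1 (!ε) * h)) = f.2 h
    rw [← mul_assoc, dl_mul, one_mul]
  continuous_toFun := by
    rw [continuous_prod_of_discrete_left]
    intro d
    exact continuous_const.prodMk (continuous_pi fun h => continuous_apply (dl d (!ε) * h))
  continuous_invFun := by
    rw [continuous_prod_of_discrete_left]
    intro d
    exact continuous_const.prodMk (continuous_pi fun h => continuous_apply (dl d ε * h))

lemma shift_apply (ε : Bool) (f : XX Z) : shift ε f = (f.1, fun h => f.2 (dl f.1 (!ε) * h)) := rfl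

/-- the content of the slot -/
def sl (f : XX Z) : Fin 3 × Z := (f.1, f.2 1)

lemma continuous_sl : Continuous (sl : XX Z → Fin 3 × Z) :=
  continuous_fst.prodMk ((continuous_apply _).comp continuous_snd)

/-- replace the content of the slot -/
def repl (f : XX Z) (q : Fin 3 × Z) : XX Z := (q.1, Function.update f.2 1 q.2)

omit [TopologicalSpace Z] in
lemma sl_repl (f : XX Z) (q : Fin 3 × Z) : sl (repl f q) = q := by
  simp [sl, repl]

omit [TopologicalSpace Z] in
lemma repl_repl (f : XX Z) (q r : Fin 3 × Z) : repl (repl f q) r = repl f r := by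
  simp [repl]

omit [TopologicalSpace Z] in
lemma repl_sl (f : XX Z) : repl f (sl f) = f := by
  simp [sl, repl]

/-- a homeomorphism acting on the content of the slot -/
def slot : ((Fin 3 × Z) ≃ₜ (Fin 3 × Z)) →* (XX Z ≃ₜ XX Z) where
  toFun u :=
    { toFun := fun f => repl f (u (sl f))
      invFun := fun f => repl f (u.symm (sl f))
      left_inv := fun f => by
        simp only [sl_repl, repl_repl, Homeomorph.symm_apply_apply, repl_sl]
      right_inv := fun f => by
        simp only [sl_repl, repl_repl, Homeomorph.apply_symm_apply, repl_sl]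
      continuous_toFun := by
        have h1 : Continuous fun f : XX Z => u (sl f) := u.continuous.comp continuous_sl
        exact (continuous_fst.comp h1).prodMk
          (continuous_snd.update 1 (continuous_snd.comp h1))
      continuous_invFun := by
        have h1 : Continuous fun f : XX Z => u.symm (sl f) := u.symm.continuous.comp continuous_sl
        exact (continuous_fst.comp h1).prodMk
          (continuous_snd.update 1 (continuous_snd.comp h1)) }
  map_one' := by
    apply Homeomorph.ext
    intro f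
    exact repl_sl f
  map_mul' u v := by
    apply Homeomorph.ext
    intro f
    change repl f (u (v (sl f))) = repl (repl f (v (sl f))) (u (sl (repl f (v (sl f)))))
    rw [sl_repl, repl_repl]

lemma slot_fst (u : (Fin 3 × Z) ≃ₜ (Fin 3 × Z)) (f : XX Z) : (slot u f).1 = (u (sl f)).1 := rfl

lemma slot_one (u : (Fin 3 × Z) ≃ₜ (Fin 3 × Z)) (f : XX Z) : (slot u f).2 1 = (u (sl f)).2 := by
  change Function.update f.2 1 (u (sl f)).2 1 = _
  simp

lemma slot_ne (u : (Fin 3 × Z) ≃ₜ (Fin 3 × Z)) (f : XX Z) {h : G} (hh : h ≠ 1) :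
    (slot u f).2 h = f.2 h := by
  change Function.update f.2 1 (u (sl f)).2 h = _
  simp [hh]

/-- the action of the free group with one more generator -/
def act (σ : FreeGroup A →* ((Fin 3 × Z) ≃ₜ (Fin 3 × Z))) :
    FreeGroup (Option A) →* (XX Z ≃ₜ XX Z) :=
  FreeGroup.lift fun o => o.elim (shift true) fun a => slot (σ (FreeGroup.of a))

variable (σ : FreeGroup A →* ((Fin 3 × Z) ≃ₜ (Fin 3 × Z)))

lemma act_some (γ : FreeGroup A) : act σ (FreeGroup.map some γ) = slot (σ γ) := by
  have : (act σ).comp (FreeGroup.map some) = slot.comp σ := by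
    apply FreeGroup.ext_hom
    intro a
    simp [act]
  exact DFunLike.congr_fun this γ

lemma act_none (ε : Bool) : act σ (FreeGroup.mk [(none, ε)]) = shift ε := by
  cases ε
  · have : FreeGroup.mk [((none : Option A), false)] = (FreeGroup.of none)⁻¹ := by
      rw [FreeGroup.of, FreeGroup.inv_mk]
      rfl
    rw [this, map_inv]
    have h : act σ (FreeGroup.of none) = shift true := by simp [act]
    rw [h]
    rfl
  · change act σ (FreeGroup.of none) = shift true
    simp [act]

/-! ### contraction -/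

section contraction

variable [MeasurableSpace (Fin 3 × Z)] [BorelSpace (Fin 3 × Z)] [MeasurableSpace (XX Z)]
  [BorelSpace (XX Z)]

/-- the move in the slot -/
lemma can_slot (hσ : Contracts σ) {S : Set (Fin 3 × Z)} (hS : IsOpen S) (hne : S.Nonempty) :
    Can (act σ) (fun f f' => sl f' ∈ S ∧ ∀ h ≠ 1, f'.2 h = f.2 h) := by
  intro μ hμ ε hε
  have hμ' : IsProbabilityMeasure (μ.map sl) :=
    Measure.isProbabilityMeasure_map continuous_sl.measurable.aemeasurable
  obtain ⟨γ, hγ⟩ := hσ S hS hne (μ.map sl) hμ' ε hε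
  refine ⟨FreeGroup.map some γ, ?_⟩
  have hm : MeasurableSet {q | ¬ σ γ q ∈ S} := hS.measurableSet.compl.preimage (σ γ).measurable
  rw [Measure.map_apply continuous_sl.measurable hm] at hγ
  refine (measure_mono ?_).trans hγ
  intro f hf hcon
  apply hf
  rw [act_some]
  refine ⟨?_, fun h hh => slot_ne _ _ hh⟩
  change sl (repl f (σ γ (sl f))) ∈ S
  rw [sl_repl]
  exact hcon

/-- the sites visited -/
def path : List (J × Bool) → Set G
  | [] => {1}
  | δ :: L => {1} ∪ {h | FreeGroup.mk [δ] * h ∈ path L}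

lemma one_mem_path (L : List (J × Bool)) : (1 : G) ∈ path L := by
  cases L with
  | nil => rfl
  | cons δ L => exact Or.inl rfl

lemma exists_path (h : G) : ∃ L, h ∈ path L := by
  have key2 : ∀ M : List (J × Bool), FreeGroup.mk M ∈ path (M.map fun δ => (δ.1, !δ.2)) := by
    intro M
    induction M with
    | nil => rfl
    | cons δ M ih =>
      right
      change FreeGroup.mk [(δ.1, !δ.2)] * FreeGroup.mk (δ :: M) ∈ path _
      have e1 : FreeGroup.mk (δ :: M) = FreeGroup.mk [δ] * FreeGroup.mk M := by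
        rw [FreeGroup.mul_mk]
        rfl
      have e2 : FreeGroup.mk [(δ.1, !δ.2)] * FreeGroup.mk [δ] = 1 := by
        rw [FreeGroup.mul_mk]
        have : FreeGroup.Red.Step ([(δ.1, !δ.2)] ++ [δ]) [] := by
          have := FreeGroup.Red.Step.cons_not (L := []) (x := δ.1) (b := !δ.2)
          rw [Bool.not_not] at this
          exact this
        exact Quot.sound this
      rw [e1, ← mul_assoc, e2, one_mul]
      exact ih
  have h1 := key2 h.toWord
  rw [FreeGroup.mk_toWord] at h1
  exact ⟨_, h1⟩

/-- the sites along a path can be given prescribed contents -/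
lemma can_path (hσ : Contracts σ) (L : List (J × Bool)) : ∀ O : G → Set Z,
    (∀ h, IsOpen (O h)) → (∀ h, (O h).Nonempty) →
    Can (act σ) (fun f f' => ∀ h, (h ∈ path L → f'.2 h ∈ O h) ∧ (h ∉ path L → f'.2 h = f.2 h)) := by
  induction L with
  | nil =>
    intro O hO hne
    have h1 := can_slot σ hσ (S := Set.univ ×ˢ O 1) (isOpen_univ.prod (hO 1))
      (Set.univ_nonempty.prod (hne 1))
    refine h1.mono ?_
    rintro f f' ⟨h1, h2⟩ h
    refine ⟨?_, fun hh => h2 h hh⟩
    rintro rfl
    exact h1.2
  | cons δ L ih =>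
    intro O hO hne
    rcases δ with ⟨⟨j, hj⟩, ε⟩
    set g : G := FreeGroup.mk [(⟨j, hj⟩, ε)] with hg
    have hdl : dl j ε = g := by simp [dl, hj, hg]
    have hdl' : dl j (!ε) = g⁻¹ := by rw [← dl_inv, hdl]
    have s1 := can_slot σ hσ (S := {j} ×ˢ O 1) ((isOpen_discrete _).prod (hO 1))
      ((Set.singleton_nonempty j).prod (hne 1))
    have s2 := Can.elem (act σ) (FreeGroup.mk [(none, ε)])
    have s3 := ih (fun h => O (g⁻¹ * h)) (fun h => hO _) (fun h => hne _)
    have s4 := can_slot σ hσ (S := {j} ×ˢ O g⁻¹) ((isOpen_discrete _).prod (hO _))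
      ((Set.singleton_nonempty j).prod (hne _))
    have s5 := Can.elem (act σ) (FreeGroup.mk [(none, !ε)])
    have s6 := can_slot σ hσ (S := Set.univ ×ˢ O 1) (isOpen_univ.prod (hO 1))
      (Set.univ_nonempty.prod (hne 1))
    refine (s1.comp (s2.comp (s3.comp (s4.comp (s5.comp s6))))).mono ?_
    rintro f f6 ⟨f1, ⟨h1, h1'⟩, f2, h2, f3, h3, f4, ⟨h4, h4'⟩, f5, h5, ⟨h6, h6'⟩⟩
    rw [act_none, shift_apply] at h2 h5
    have hf1 : f1.1 = j := h1.1
    have hf4 : f4.1 = j := h4.1
    have e2 : ∀ h, f2.2 h = f1.2 (g⁻¹ * h) := by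
      intro h
      rw [h2]
      simp only
      rw [hf1, hdl']
    have e5 : ∀ h, f5.2 h = f4.2 (g * h) := by
      intro h
      rw [h5]
      simp only
      rw [hf4, Bool.not_not, hdl]
    have e6 : f6.2 1 ∈ O 1 := h6.2
    have e4 : f4.2 1 ∈ O g⁻¹ := h4.2
    intro h
    by_cases h1h : h = 1
    · subst h1h
      exact ⟨fun _ => e6, fun hh => absurd (one_mem_path _) hh⟩
    · rw [h6' h h1h, e5]
      by_cases hgh : g * h = 1
      · have hh : h = g⁻¹ := (inv_eq_of_mul_eq_one_right hgh).symm
        rw [hgh]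
        constructor
        · intro _
          rw [hh]
          exact e4
        · intro hcon
          exfalso
          apply hcon
          right
          change g * h ∈ path L
          rw [hgh]
          exact one_mem_path L
      · rw [h4' _ hgh]
        constructor
        · intro hh
          have hh' : g * h ∈ path L := by
            rcases hh with hh | hh
            · exact absurd hh h1h
            · exact hh
          have h7 : f3.2 (g * h) ∈ O (g⁻¹ * (g * h)) := (h3 (g * h)).1 hh'
          rwa [inv_mul_cancel_left] at h7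
        · intro hh
          have hh' : g * h ∉ path L := fun hc => hh (Or.inr hc)
          rw [(h3 (g * h)).2 hh', e2, inv_mul_cancel_left]
          exact h1' h h1h

/-- finitely many sites can be given prescribed contents -/
lemma can_sites (hσ : Contracts σ) (Λ : Finset G) (O : G → Set Z)
    (hO : ∀ h, IsOpen (O h)) (hne : ∀ h, (O h).Nonempty) :
    Can (act σ) (fun _ f' => ∀ h ∈ Λ, f'.2 h ∈ O h) := by
  classical
  induction Λ using Finset.induction_on with
  | empty =>
    refine (Can.elem (act σ) 1).mono ?_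
    intro f f' _ h hh
    simp at hh
  | insert a Λ _ ih =>
    obtain ⟨L, hL⟩ := exists_path a
    refine (ih.comp (can_path σ hσ L O hO hne)).mono ?_
    rintro f f2 ⟨f1, h1, h2⟩ h hh
    by_cases hp : h ∈ path L
    · exact (h2 h).1 hp
    · rw [(h2 h).2 hp]
      rcases Finset.mem_insert.1 hh with rfl | hh
      · exact absurd hL hp
      · exact h1 h hh

lemma contracts_act (hσ : Contracts σ) : Contracts (act σ) := by
  classical
  intro U hU hne
  obtain ⟨⟨d, z⟩, hdz⟩ := hne
  obtain ⟨U₁, U₂, hU₁, hU₂, hd, hz, hsub⟩ := isOpen_prod_iff.1 hU d z hdz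
  obtain ⟨I, u, hu, huU⟩ := isOpen_pi_iff.1 hU₂ z hz
  let O : G → Set Z := fun h => if h ∈ I then u h else Set.univ
  have hO : ∀ h, IsOpen (O h) := by
    intro h
    by_cases hh : h ∈ I
    · simp only [O, hh, if_true]
      exact (hu h hh).1
    · simp only [O, hh, if_false]
      exact isOpen_univ
  have hzO : ∀ h, z h ∈ O h := by
    intro h
    by_cases hh : h ∈ I
    · simp only [O, hh, if_true]
      exact (hu h hh).2
    · simp only [O, hh, if_false]
      exact Set.mem_univ _
  have c1 := can_sites σ hσ I O hO fun h => ⟨z h, hzO h⟩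
  have c2 := can_slot σ hσ (S := {d} ×ˢ O 1) ((isOpen_discrete _).prod (hO 1))
      ⟨(d, z 1), rfl, hzO 1⟩
  refine (c1.comp c2).mono ?_
  rintro f f2 ⟨f1, h1, h2, h2'⟩
  have : (f2.1, f2.2) ∈ U₁ ×ˢ U₂ := by
    refine ⟨?_, ?_⟩
    · have : f2.1 = d := h2.1
      simp only [this]
      exact hd
    · apply huU
      intro h hh
      have hOh : O h = u h := by simp only [O]; rw [if_pos (by exact hh)]
      rw [← hOh]
      by_cases h1h : h = 1
      · subst h1h
        exact h2.2
      · change f2.2 h ∈ O h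
        rw [h2' h h1h]
        exact h1 h hh
  exact hsub this

end contraction

/-! ### faithfulness -/

/-- Words which start (on the left) with the new generator, to the power `±1` given by `ε`, and
which move the contents of far away sites by a nontrivial translation. -/
def Good (ε : Bool) (w : FreeGroup (Option A)) : Prop :=
  ∃ (f0 : XX Z) (j : Fin 3) (hj : j ≠ 0) (L : List (J × Bool)),
    FreeGroup.IsReduced ((⟨j, hj⟩, ε) :: L) ∧
    ∀ f : XX Z, f.1 = f0.1 → (∀ h : G, h.norm < L.length + 1 → f.2 h = f0.2 h) →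
      (act σ w f).1 = j ∧ ∀ h : G, L.length + 1 ≤ h.norm →
        (act σ w f).2 (FreeGroup.mk ((⟨j, hj⟩, ε) :: L) * h) = f.2 h

lemma norm_reduced {L : List (J × Bool)} (hL : FreeGroup.IsReduced L) :
    (FreeGroup.mk L).norm = L.length := by
  rw [FreeGroup.norm, FreeGroup.toWord_mk, hL.reduce_eq]

lemma good_base [Nonempty Z] (γ : FreeGroup A) (ε : Bool) :
    Good σ ε (FreeGroup.mk [(none, ε)] * FreeGroup.map some γ) := by
  obtain ⟨z⟩ := ‹Nonempty Z›
  let q : Fin 3 × Z := (σ γ).symm (1, z)
  refine ⟨(q.1, fun _ => q.2), 1, by decide, [], FreeGroup.IsReduced.singleton, ?_⟩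
  intro f hf1 hf2
  have hsl : sl f = q := Prod.ext hf1 (hf2 1 (by simp))
  have h1 : (slot (σ γ) f).1 = 1 := by
    rw [slot_fst, hsl]
    simp only [q, Homeomorph.apply_symm_apply]
  rw [map_mul, act_none, act_some]
  change (shift ε (slot (σ γ) f)).1 = 1 ∧ ∀ h : G, _ → (shift ε (slot (σ γ) f)).2 _ = _
  rw [shift_apply]
  refine ⟨h1, fun h hh => ?_⟩
  have hh1 : h ≠ 1 := by
    rintro rfl
    simp at hh
  simp only
  rw [h1]
  have e1 : dl 1 ε = FreeGroup.mk [((⟨1, by decide⟩ : J), ε)] := by
    rw [dl, dif_pos (by decide)]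
  rw [← e1, ← mul_assoc, dl_mul', one_mul]
  exact slot_ne _ _ hh1

lemma good_same {ε : Bool} {w : FreeGroup (Option A)} (hw : Good σ ε w) :
    Good σ ε (FreeGroup.mk [(none, ε)] * w) := by
  obtain ⟨f0, j, hj, L, hL, hf⟩ := hw
  refine ⟨f0, j, hj, (⟨j, hj⟩, ε) :: L, ?_, ?_⟩
  · rw [FreeGroup.isReduced_cons_cons]
    exact ⟨fun _ => rfl, hL⟩
  · intro f hf1 hf2
    have hlen : (((⟨j, hj⟩ : J), ε) :: L).length = L.length + 1 := rfl
    rw [hlen] at hf2 ⊢
    obtain ⟨h1, h2⟩ := hf f hf1 fun h hh => hf2 h (by omega)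
    rw [map_mul, act_none]
    change (shift ε (act σ w f)).1 = j ∧ ∀ h : G, _ → (shift ε (act σ w f)).2 _ = _
    rw [shift_apply]
    refine ⟨h1, fun h hh => ?_⟩
    simp only
    rw [h1]
    have e1 : dl j ε = FreeGroup.mk [((⟨j, hj⟩ : J), ε)] := by
      rw [dl, dif_pos hj]
    have e2 : FreeGroup.mk (((⟨j, hj⟩ : J), ε) :: (⟨j, hj⟩, ε) :: L) =
        dl j ε * FreeGroup.mk ((⟨j, hj⟩, ε) :: L) := by
      rw [e1, FreeGroup.mul_mk]
      rfl
    rw [e2, mul_assoc, ← mul_assoc, dl_mul', one_mul]
    exact h2 h (by omega)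

/-- the property of the action on `Fin 3 × Z` which is used -/
def Star (σ : FreeGroup A →* ((Fin 3 × Z) ≃ₜ (Fin 3 × Z))) : Prop :=
  ∀ γ : FreeGroup A, γ ≠ 1 → ∀ j : Fin 3, j ≠ 0 →
    ∃ c : Z, (σ γ (j, c)).1 ≠ 0 ∧ (σ γ (j, c)).1 ≠ j

lemma good_step (hs : Star σ) {γ : FreeGroup A} (hγ : γ ≠ 1) {ε : Bool} (ε' : Bool)
    {w : FreeGroup (Option A)} (hw : Good σ ε w) :
    Good σ ε' (FreeGroup.mk [(none, ε')] * (FreeGroup.map some γ * w)) := by
  obtain ⟨f0, j, hj, L, hL, hf⟩ := hw
  obtain ⟨c, hc0, hcj⟩ := hs γ hγ j hj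
  set j' : Fin 3 := (σ γ (j, c)).1 with hj'
  set g : G := FreeGroup.mk ((⟨j, hj⟩, ε) :: L) with hg
  have hgn : g.norm = L.length + 1 := norm_reduced hL
  have hgn' : g⁻¹.norm = L.length + 1 := by rw [FreeGroup.norm_inv_eq, hgn]
  refine ⟨(f0.1, Function.update f0.2 g⁻¹ c), j', hc0, (⟨j, hj⟩, ε) :: L, ?_, ?_⟩
  · rw [FreeGroup.isReduced_cons_cons]
    refine ⟨fun h => ?_, hL⟩
    exact absurd (congrArg Subtype.val h) hcj
  · intro f hf1 hf2
    have hlen : (((⟨j, hj⟩ : J), ε) :: L).length = L.length + 1 := rfl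
    rw [hlen] at hf2 ⊢
    obtain ⟨h1, h2⟩ := hf f hf1 fun h hh => by
      rw [hf2 h (by omega)]
      have : h ≠ g⁻¹ := by
        rintro rfl
        omega
      simp [this]
    have hfc : f.2 g⁻¹ = c := by
      rw [hf2 _ (by omega)]
      simp
    have hsl : sl (act σ w f) = (j, c) := by
      refine Prod.ext h1 ?_
      change (act σ w f).2 1 = c
      rw [← mul_inv_cancel g, h2 _ (by omega)]
      exact hfc
    have h3 : (slot (σ γ) (act σ w f)).1 = j' := by
      rw [slot_fst, hsl]
    rw [map_mul, map_mul, act_none, act_some]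
    change (shift ε' (slot (σ γ) (act σ w f))).1 = j' ∧
      ∀ h : G, _ → (shift ε' (slot (σ γ) (act σ w f))).2 _ = _
    rw [shift_apply]
    refine ⟨h3, fun h hh => ?_⟩
    simp only
    rw [h3]
    have e1 : dl j' ε' = FreeGroup.mk [((⟨j', hc0⟩ : J), ε')] := by
      rw [dl, dif_pos hc0]
    have e2 : FreeGroup.mk (((⟨j', hc0⟩ : J), ε') :: (⟨j, hj⟩, ε) :: L) = dl j' ε' * g := by
      rw [e1, hg, FreeGroup.mul_mk]
      rfl
    rw [e2, mul_assoc, ← mul_assoc, dl_mul', one_mul]
    have hne : g * h ≠ 1 := by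
      intro hcon
      have : h = g⁻¹ := (inv_eq_of_mul_eq_one_right hcon).symm
      rw [this, hgn'] at hh
      omega
    rw [slot_ne _ _ hne]
    exact h2 h (by omega)

lemma good_ne (hz : ∃ a b : Z, a ≠ b) {ε : Bool} {w : FreeGroup (Option A)} (hw : Good σ ε w)
    (γ : FreeGroup A) : act σ (FreeGroup.map some γ * w) ≠ 1 := by
  obtain ⟨f0, j, hj, L, hL, hf⟩ := hw
  obtain ⟨a, b, hab⟩ := hz
  intro hcon
  set g : G := FreeGroup.mk ((⟨j, hj⟩, ε) :: L) with hg
  have hgn : g.norm = L.length + 1 := norm_reduced hL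
  have hgn' : g⁻¹.norm = L.length + 1 := by rw [FreeGroup.norm_inv_eq, hgn]
  let s : G := FreeGroup.of ⟨1, by decide⟩ ^ (2 * (L.length + 1))
  have hs : s.norm = 2 * (L.length + 1) := FreeGroup.norm_of_pow _ _
  have hgs : L.length + 1 ≤ (g * s).norm := by
    have h1 : (g⁻¹ * (g * s)).norm ≤ g⁻¹.norm + (g * s).norm := FreeGroup.norm_mul_le _ _
    rw [inv_mul_cancel_left, hs, hgn'] at h1
    omega
  have hgs1 : g * s ≠ 1 := by
    intro h
    rw [h] at hgs
    simp at hgs
  have hg1 : g * s ≠ s := by
    intro h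
    have : g = 1 := mul_eq_right.1 h
    rw [this] at hgn
    simp at hgn
  let f : XX Z := (f0.1, fun h => if h = s then a else if h = g * s then b else f0.2 h)
  obtain ⟨h1, h2⟩ := hf f rfl fun h hh => by
    have e1 : h ≠ s := by
      rintro rfl
      omega
    have e2 : h ≠ g * s := by
      rintro rfl
      omega
    simp [f, e1, e2]
  have h3 := h2 s (by omega)
  have h4 : (act σ (FreeGroup.map some γ * w) f).2 (g * s) = f.2 s := by
    rw [map_mul, act_some]
    change (slot (σ γ) (act σ w f)).2 (g * s) = f.2 s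
    rw [slot_ne _ _ hgs1]
    exact h3
  rw [hcon] at h4
  change f.2 (g * s) = f.2 s at h4
  simp only [f, hg1, if_true, if_false] at h4
  exact hab h4.symm

lemma reduced_of_map {B : List (A × Bool)}
    (h : FreeGroup.IsReduced (B.map fun l => ((some l.1, l.2) : Option A × Bool))) :
    FreeGroup.IsReduced B := by
  rw [FreeGroup.IsReduced, List.isChain_map] at h
  refine h.imp ?_
  intro a b h1 h2
  exact h1 (congrArg some h2)

lemma mk_ne_one [DecidableEq A] {B : List (A × Bool)} (hB : FreeGroup.IsReduced B)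
    (hne : B ≠ []) : FreeGroup.mk B ≠ 1 := by
  intro h
  have h1 : (FreeGroup.mk B).toWord = B := by rw [FreeGroup.toWord_mk, hB.reduce_eq]
  rw [h, FreeGroup.toWord_one] at h1
  exact hne h1.symm

lemma decompose [DecidableEq A] [Nonempty Z] (hs : Star σ) (M : List (Option A × Bool))
    (hM : FreeGroup.IsReduced M) :
    ∃ B : List (A × Bool), M = B.map (fun l => (some l.1, l.2)) ∨
      ∃ (ε : Bool) (N : List (Option A × Bool)), M = B.map (fun l => (some l.1, l.2)) ++
        (none, ε) :: N ∧ Good σ ε (FreeGroup.mk ((none, ε) :: N)) := by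
  induction M with
  | nil => exact ⟨[], Or.inl rfl⟩
  | cons l M ih =>
    obtain ⟨B, hB⟩ := ih (List.IsChain.tail hM)
    rcases l with ⟨o, ε⟩
    cases o with
    | some a =>
      refine ⟨(a, ε) :: B, ?_⟩
      rcases hB with hB | ⟨ε1, N, hB, hN⟩
      · left
        rw [hB]
        rfl
      · right
        refine ⟨ε1, N, ?_, hN⟩
        rw [hB]
        rfl
    | none =>
      refine ⟨[], Or.inr ⟨ε, M, rfl, ?_⟩⟩
      rcases hB with hB | ⟨ε1, N, hB, hN⟩
      · have h1 := good_base σ (FreeGroup.mk B) ε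
        rw [FreeGroup.map.mk, FreeGroup.mul_mk] at h1
        rw [hB]
        exact h1
      · by_cases hBn : B = []
        · subst hBn
          have hM' : M = (none, ε1) :: N := hB
          rw [hM', FreeGroup.isReduced_cons_cons] at hM
          have he : ε = ε1 := hM.1 rfl
          subst he
          have h1 := good_same σ hN
          rw [FreeGroup.mul_mk] at h1
          rw [hM']
          exact h1
        · have hBr : FreeGroup.IsReduced B := by
            apply reduced_of_map
            have h2 : FreeGroup.IsReduced M := List.IsChain.tail hM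
            rw [hB] at h2
            exact List.IsChain.left_of_append h2
          have h1 := good_step σ hs (mk_ne_one hBr hBn) ε hN
          rw [FreeGroup.map.mk, FreeGroup.mul_mk, FreeGroup.mul_mk] at h1
          rw [hB]
          exact h1

/-- the new action is faithful -/
lemma act_injective [DecidableEq A] (hz : ∃ a b : Z, a ≠ b) (hs : Star σ) :
    Function.Injective (act σ) := by
  rw [injective_iff_map_eq_one]
  intro w hw
  haveI : Nonempty Z := ⟨hz.choose⟩
  obtain ⟨B, hB⟩ := decompose σ hs w.toWord FreeGroup.isReduced_toWord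
  rcases hB with hB | ⟨ε, N, hB, hN⟩
  · by_cases hBn : B = []
    · subst hBn
      exact FreeGroup.toWord_eq_nil_iff.1 hB
    · exfalso
      have hBr : FreeGroup.IsReduced B := by
        apply reduced_of_map
        rw [← hB]
        exact FreeGroup.isReduced_toWord
      obtain ⟨c, -, hc⟩ := hs _ (mk_ne_one hBr hBn) 1 (by decide)
      have h1 : w = FreeGroup.map some (FreeGroup.mk B) := by
        rw [FreeGroup.map.mk, ← hB, FreeGroup.mk_toWord]
      rw [h1, act_some] at hw
      have h2 : (slot (σ (FreeGroup.mk B)) ((1, fun _ => c) : XX Z)).1 = 1 := by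
        rw [hw]
        rfl
      rw [slot_fst] at h2
      exact hc h2
  · exfalso
    have h1 : w = FreeGroup.map some (FreeGroup.mk B) * FreeGroup.mk ((none, ε) :: N) := by
      rw [FreeGroup.map.mk, FreeGroup.mul_mk, ← hB, FreeGroup.mk_toWord]
    rw [h1] at hw
    exact good_ne σ hz hN _ hw

/-- the new generator fixes the points of an open set -/
lemma act_fixed (f : XX Z) (hf : f.1 = 0) : act σ (FreeGroup.of none) f = f := by
  have h1 : act σ (FreeGroup.of none) = shift true := by simp [act]
  rw [h1, shift_apply]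
  refine Prod.ext rfl (funext fun h => ?_)
  simp only
  rw [hf, dl_zero, one_mul]

end Pool.Agent.Q80.FB
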